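import Pool.Agent.H301R2.SSE.Nine3

/-!
What would follow if `π e` were algebraic: as soon as `e ^ (β e)` or `π ^ (β e)` is algebraic for
one nonzero algebraic `β`, all the numbers `π ^ (γ π)`, `e ^ (γ π²)`, `n ^ (γ π)`, `n ^ (γ e)`
(`n ≥ 2` an integer, `γ ≠ 0` algebraic) are transcendental.
-/

set_option autoImplicit false

namespace Pool.Agent.Results.MP_a2f59b_nt.ProductAlgebraic

open Pool.Agent.H301R2.SSE Pool.Agent.H301R2.Nine

/-- some nonzero algebraic multiple of `z` is a logarithm of an algebraic number; for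
`z = y * log x` this says that `x ^ (β * y)` is algebraic for some algebraic `β ≠ 0` -/
def SomeAlg (z : ℂ) : Prop :=
  ∃ β : ℂ, β ≠ 0 ∧ IsAlgebraic ℚ β ∧ IsAlgebraic ℚ (Complex.exp (β * z))

theorem SomeAlg.mem {z : ℂ} (h : SomeAlg z) : z ∈ LB := by
  obtain ⟨β, h0, hβ, he⟩ := h
  have h1 := LB_mul hβ.inv (LB_log he)
  rwa [inv_mul_cancel_left₀ h0] at h1

/-- the number `π` -/
noncomputable abbrev P : ℂ := (Real.pi : ℂ)

/-- the number `e` -/
noncomputable abbrev E : ℂ := ((Real.exp 1 : ℝ) : ℂ)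

/-- the number `log π` -/
noncomputable abbrev Lp : ℂ := ((Real.log Real.pi : ℝ) : ℂ)

/-- the number `log n` -/
noncomputable abbrev Ln (n : ℕ) : ℂ := ((Real.log n : ℝ) : ℂ)

theorem P_ne : P ≠ 0 := by
  unfold P
  exact_mod_cast Real.pi_ne_zero

section
variable (hr : IsAlgebraic ℚ (Real.pi * Real.exp 1))
include hr

theorem EP : IsAlgebraic ℚ (E * P) := by
  have := toC hr
  push_cast at this
  unfold E P
  push_cast
  rwa [mul_comm]

theorem key {y0 y1 y2 : ℂ}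
    (hy : ∀ a b c : ℂ, IsAlgebraic ℚ a → IsAlgebraic ℚ b → IsAlgebraic ℚ c →
      a * y0 + b * y1 + c * y2 = 0 → a = 0 ∧ b = 0 ∧ c = 0)
    (h0 : y0 ∈ Lt) (h1 : y1 ∈ Lt) (h2 : y2 ∈ Lt)
    (g0 : E * y0 ∈ Lt) (g1 : E * y1 ∈ Lt) (g2 : E * y2 ∈ Lt) : False := by
  refine six' 1 E y0 y1 y2 ?_ hy (by simpa using h0) (by simpa using h1) (by simpa using h2)
    g0 g1 g2
  intro a b ha hb h
  exact lin_of_tr trC_e ha hb (by simpa using h)

theorem rho : ((1 + Real.log Real.pi : ℝ) : ℂ) ∈ LB := by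
  apply real_mem
  rw [Real.exp_add, Real.exp_log Real.pi_pos, mul_comm]
  exact hr

theorem Lp_mem : Lp ∈ Lt := by
  have h := Lt.sub_mem (LB_Lt (rho hr)) Lt_one
  have e : ((1 + Real.log Real.pi : ℝ) : ℂ) - 1 = Lp := by unfold Lp; push_cast; ring
  rwa [e] at h

theorem ind {a b c : ℂ} (ha : IsAlgebraic ℚ a) (hb : IsAlgebraic ℚ b) (hc : IsAlgebraic ℚ c)
    (h : a + b * P + c * Lp = 0) : a = 0 ∧ b = 0 ∧ c = 0 := by
  have ht : (1 + Real.log Real.pi : ℝ) ≠ 0 := by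
    have : 0 < Real.log Real.pi := Real.log_pos (by linarith [Real.pi_gt_three])
    linarith
  obtain ⟨h1, h2, h3⟩ := pi_log (t := 1 + Real.log Real.pi) ht (by
    rw [Real.exp_add, Real.exp_log Real.pi_pos, mul_comm]; exact hr) (ha.sub hc) hb hc (by
    rw [← h]; unfold P Lp; push_cast; ring)
  refine ⟨?_, h2, h3⟩
  rw [h3, sub_zero] at h1
  exact h1

/-- products with `π` -/
theorem EPy {y : ℂ} (hy : y ∈ Lt) : E * (P * y) ∈ Lt := by
  rw [← mul_assoc]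
  exact Lt_mul (EP hr) hy

theorem L_tr {a c : ℂ} (ha : IsAlgebraic ℚ a) (hc : IsAlgebraic ℚ c) (h : a + c * Lp = 0) :
    a = 0 ∧ c = 0 := by
  obtain ⟨h1, -, h3⟩ := ind hr ha isAlgebraic_zero hc (by rw [zero_mul, add_zero]; exact h)
  exact ⟨h1, h3⟩

end

theorem log_ne {n : ℕ} (hn : 2 ≤ n) : Real.log n ≠ 0 := by
  have : (1 : ℝ) < n := by exact_mod_cast hn
  exact (Real.log_pos this).ne'

theorem log_alg {n : ℕ} (hn : 2 ≤ n) : IsAlgebraic ℚ (Real.exp (Real.log n)) := by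
  have : (0 : ℝ) < n := by exact_mod_cast (by omega : 0 < n)
  rw [Real.exp_log this]
  exact isAlgebraic_natCast n

theorem Ln_mem {n : ℕ} (hn : 2 ≤ n) : Ln n ∈ LB := real_mem (log_alg hn)

theorem indN {n : ℕ} (hn : 2 ≤ n) {a b c : ℂ} (ha : IsAlgebraic ℚ a) (hb : IsAlgebraic ℚ b)
    (hc : IsAlgebraic ℚ c) (h : a + b * P + c * Ln n = 0) : a = 0 ∧ b = 0 ∧ c = 0 :=
  pi_log (log_ne hn) (log_alg hn) ha hb hc h

theorem N_tr {n : ℕ} (hn : 2 ≤ n) {a c : ℂ} (ha : IsAlgebraic ℚ a) (hc : IsAlgebraic ℚ c)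
    (h : a + c * Ln n = 0) : a = 0 ∧ c = 0 := by
  obtain ⟨h1, -, h3⟩ := indN hn ha isAlgebraic_zero hc (by rw [zero_mul, add_zero]; exact h)
  exact ⟨h1, h3⟩

/-- cancellation of `π` -/
theorem cancelP {u : ℂ} (h : P * u = 0) : u = 0 := (mul_eq_zero.mp h).resolve_left P_ne

section
variable (hr : IsAlgebraic ℚ (Real.pi * Real.exp 1))
include hr

/-- first basis `1, π, y`, where `y = π u` is a form in logarithms -/
theorem baseA {u : ℂ} (hE : E ∈ LB) (hu : u ∈ Lt) (hPu : P * u ∈ LB)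
    (hind : ∀ b c : ℂ, IsAlgebraic ℚ b → IsAlgebraic ℚ c → b + c * u = 0 → b = 0 ∧ c = 0) :
    False := by
  refine key hr (y0 := 1) (y1 := P) (y2 := P * u) ?_ Lt_one (LB_Lt pi_mem) (LB_Lt hPu)
    (by rw [mul_one]; exact LB_Lt hE) (Lt_alg (EP hr)) (EPy hr hu)
  intro a b c ha hb hc h
  have ha0 : a = 0 := by
    refine LB_alg ?_ ha
    have e : a = (-b) * P + (-c) * (P * u) := by linear_combination h
    rw [e]
    exact LB.add_mem (LB_mul hb.neg pi_mem) (LB_mul hc.neg hPu)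
  obtain ⟨h1, h2⟩ := hind b c hb hc (cancelP (by linear_combination h - ha0))
  exact ⟨ha0, h1, h2⟩

/-- second basis `π, log π, π u`, where `π u` is a form in logarithms -/
theorem baseB {u : ℂ} (hEL : E * Lp ∈ LB) (hu : u ∈ Lt) (hPu : P * u ∈ LB)
    (hind : ∀ b c : ℂ, IsAlgebraic ℚ b → IsAlgebraic ℚ c → b + c * u = 0 → b = 0 ∧ c = 0) :
    False := by
  refine key hr (y0 := P) (y1 := Lp) (y2 := P * u) ?_ (LB_Lt pi_mem) (Lp_mem hr) (LB_Lt hPu)
    (Lt_alg (EP hr)) (LB_Lt hEL) (EPy hr hu)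
  intro a b c ha hb hc h
  have hb0 : b = 0 := by
    refine LB_alg ?_ hb
    have e : b = a * P + b * ((1 + Real.log Real.pi : ℝ) : ℂ) + c * (P * u) := by
      have e2 : ((1 + Real.log Real.pi : ℝ) : ℂ) = 1 + Lp := by unfold Lp; push_cast; ring
      rw [e2]
      linear_combination -h
    rw [e]
    exact LB.add_mem (LB.add_mem (LB_mul ha pi_mem) (LB_mul hb (rho hr))) (LB_mul hc hPu)
  subst hb0
  obtain ⟨h1, h2⟩ := hind a c ha hc (cancelP (by linear_combination h))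
  exact ⟨h1, rfl, h2⟩

/-- third basis `π, π², π u` -/
theorem baseD {u : ℂ} (hPP : P * P ∈ LB) (hu : u ∈ Lt) (hPu : P * u ∈ LB)
    (hind : ∀ a b c : ℂ, IsAlgebraic ℚ a → IsAlgebraic ℚ b → IsAlgebraic ℚ c →
      a + b * P + c * u = 0 → a = 0 ∧ b = 0 ∧ c = 0) : False := by
  refine key hr (y0 := P) (y1 := P * P) (y2 := P * u) ?_ (LB_Lt pi_mem) (LB_Lt hPP) (LB_Lt hPu)
    (Lt_alg (EP hr)) (EPy hr (LB_Lt pi_mem)) (EPy hr hu)
  intro a b c ha hb hc h
  exact hind a b c ha hb hc (cancelP (by linear_combination h))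

theorem pairAB (hA : E ∈ LB) (hB : E * Lp ∈ LB) : False := by
  refine key hr (y0 := 1) (y1 := P) (y2 := Lp) ?_ Lt_one (LB_Lt pi_mem) (Lp_mem hr)
    (by rw [mul_one]; exact LB_Lt hA) (Lt_alg (EP hr)) (LB_Lt hB)
  intro a b c ha hb hc h
  exact ind hr ha hb hc (by rw [mul_one] at h; exact h)

theorem pairAF {n : ℕ} (hn : 2 ≤ n) (hA : E ∈ LB) (hF : E * Ln n ∈ LB) : False := by
  refine key hr (y0 := 1) (y1 := P) (y2 := Ln n) ?_ Lt_one (LB_Lt pi_mem) (LB_Lt (Ln_mem hn))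
    (by rw [mul_one]; exact LB_Lt hA) (Lt_alg (EP hr)) (LB_Lt hF)
  intro a b c ha hb hc h
  exact indN hn ha hb hc (by rw [mul_one] at h; exact h)

theorem pairBF {n : ℕ} (hn : 2 ≤ n) (hB : E * Lp ∈ LB) (hF : E * Ln n ∈ LB) : False := by
  refine key hr (y0 := P) (y1 := Lp) (y2 := Ln n) ?_ (LB_Lt pi_mem) (Lp_mem hr)
    (LB_Lt (Ln_mem hn)) (Lt_alg (EP hr)) (LB_Lt hB) (LB_Lt hF)
  intro a b c ha hb hc h
  have hb0 : b = 0 := by
    refine LB_alg ?_ hb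
    have e : b = a * P + b * ((1 + Real.log Real.pi : ℝ) : ℂ) + c * Ln n := by
      have e2 : ((1 + Real.log Real.pi : ℝ) : ℂ) = 1 + Lp := by unfold Lp; push_cast; ring
      rw [e2]
      linear_combination -h
    rw [e]
    exact LB.add_mem (LB.add_mem (LB_mul ha pi_mem) (LB_mul hb (rho hr)))
      (LB_mul hc (Ln_mem hn))
  subst hb0
  obtain ⟨-, h1, h2⟩ := indN hn isAlgebraic_zero ha hc (by linear_combination h)
  exact ⟨h1, rfl, h2⟩

end

/-- **Either `π e` is transcendental, or the following holds** (`β, γ` nonzero algebraic,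
`n ≥ 2` an integer).
(1) If some `e ^ (β e)` is algebraic then all `π ^ (γ e)`, `π ^ (γ π)`, `e ^ (γ π²)`,
`n ^ (γ π)`, `n ^ (γ e)` are transcendental.
(2) If some `π ^ (β e)` is algebraic then all `π ^ (γ π)`, `e ^ (γ π²)`, `n ^ (γ π)`, `n ^ (γ e)`
are transcendental.
(3) If some `e ^ (β π²)` is algebraic then all `π ^ (γ π)` are transcendental. -/
theorem result : Transcendental ℚ (Real.pi * Real.exp 1) ∨
    ((SomeAlg E → ¬ SomeAlg (E * Lp) ∧ ¬ SomeAlg (P * Lp) ∧ ¬ SomeAlg (P * P) ∧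
        ∀ n : ℕ, 2 ≤ n → ¬ SomeAlg (P * Ln n) ∧ ¬ SomeAlg (E * Ln n)) ∧
      (SomeAlg (E * Lp) → ¬ SomeAlg (P * Lp) ∧ ¬ SomeAlg (P * P) ∧
        ∀ n : ℕ, 2 ≤ n → ¬ SomeAlg (P * Ln n) ∧ ¬ SomeAlg (E * Ln n)) ∧
      (SomeAlg (P * P) → ¬ SomeAlg (P * Lp))) := by
  by_cases hr : IsAlgebraic ℚ (Real.pi * Real.exp 1)
  · right
    refine ⟨fun hA => ⟨fun h => pairAB hr hA.mem h.mem, fun h => ?_, fun h => ?_, fun n hn =>
      ⟨fun h => ?_, fun h => pairAF hr hn hA.mem h.mem⟩⟩, fun hB => ⟨fun h => ?_, fun h => ?_,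
      fun n hn => ⟨fun h => ?_, fun h => pairBF hr hn hB.mem h.mem⟩⟩, fun hD h => ?_⟩
    · exact baseA hr hA.mem (Lp_mem hr) h.mem fun b c hb hc => L_tr hr hb hc
    · exact baseA hr hA.mem (LB_Lt pi_mem) h.mem fun b c hb hc => lin_of_tr trC_pi hb hc
    · exact baseA hr hA.mem (LB_Lt (Ln_mem hn)) h.mem fun b c hb hc => N_tr hn hb hc
    · exact baseB hr hB.mem (Lp_mem hr) h.mem fun b c hb hc => L_tr hr hb hc
    · exact baseB hr hB.mem (LB_Lt pi_mem) h.mem fun b c hb hc => lin_of_tr trC_pi hb hc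
    · exact baseB hr hB.mem (LB_Lt (Ln_mem hn)) h.mem fun b c hb hc => N_tr hn hb hc
    · exact baseD hr hD.mem (Lp_mem hr) h.mem fun a b c ha hb hc => ind hr ha hb hc
  · exact Or.inl hr

end Pool.Agent.Results.MP_a2f59b_nt.ProductAlgebraic
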