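import Pool.Agent.Results.MP_a2f59b_nt.FiveOfNine
import Pool.Agent.H364R2.PiE

/-!
At least six of the nine numbers
`π + e`, `π - e`, `π e`, `π / e`, `π ^ π`, `e ^ e`, `π ^ e`, `π ^ √2`, `e ^ (π²)`
are irrational, unless four explicit ones are rational and the other five are transcendental.
-/

set_option autoImplicit false

namespace Pool.Agent.Results.MP_a2f59b_nt.SixIrrational

open Real

/-- the nine numbers, in the order of the problem -/
noncomputable def nine : Fin 9 → ℝ :=
  ![π + exp 1, π - exp 1, π * exp 1, π / exp 1, π ^ π, exp 1 ^ exp 1, π ^ exp 1, π ^ √2,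
    exp 1 ^ (π ^ 2)]

/-- a nonzero rational power of `π` is transcendental -/
theorem rat_pow {a : ℚ} (ha : 0 < a) (h : IsAlgebraic ℚ (π ^ ((a : ℚ) : ℝ))) : False := by
  apply Pool.Agent.H340R2.LW.transcendental_pi
  have hpi := Real.pi_pos
  have h5 : IsAlgebraic ℚ ((Real.pi ^ ((a : ℚ) : ℝ)) ^ a.den) := h.pow _
  have h6 : (Real.pi ^ ((a : ℚ) : ℝ)) ^ a.den = Real.pi ^ a.num := by
    rw [← Real.rpow_natCast, ← Real.rpow_mul hpi.le, ← Real.rpow_intCast]
    congr 1
    have : ((a * a.den : ℚ) : ℝ) = ((a.num : ℚ) : ℝ) := by rw [Rat.mul_den_eq_num]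
    push_cast at this
    exact_mod_cast this
  rw [h6] at h5
  have hnum : 0 < a.num := Rat.num_pos.mpr ha
  obtain ⟨n, hn⟩ := Int.eq_ofNat_of_zero_le hnum.le
  rw [hn, zpow_natCast] at h5
  have hn0 : 0 < n := by omega
  exact h5.of_pow hn0

/-- if `π - e` is rational then `π ^ e` and `π ^ π` are not both algebraic -/
theorem diff_pow (h1 : ¬ Irrational (π - exp 1)) (h2 : IsAlgebraic ℚ (π ^ exp 1))
    (h3 : IsAlgebraic ℚ (π ^ π)) : False := by
  unfold Irrational at h1
  push Not at h1
  obtain ⟨a, ha⟩ := h1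
  have ha0 : 0 < a := by
    have : (0 : ℝ) < a := by
      rw [ha]
      linarith [Pool.Agent.H301R2.Nine.e_lt_pi]
    exact_mod_cast this
  refine rat_pow ha0 ?_
  rw [ha, Real.rpow_sub Real.pi_pos, div_eq_mul_inv]
  exact h3.mul h2.inv

set_option maxRecDepth 100000 in
theorem count0 : ∀ b0 b1 b2 b3 b4 b5 b6 b7 b8 : Bool,
    (∀ S ∈ FiveOfNine.sets, ∃ i ∈ S, ![b0, b1, b2, b3, b4, b5, b6, b7, b8] i = true) →
    ((b0 || b4 || b6) = true) → ((b1 || b4 || b6) = true) →
    ((decide (6 ≤ b0.toNat + b1.toNat + b2.toNat + b3.toNat + b4.toNat + b5.toNat + b6.toNat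
      + b7.toNat + b8.toNat) || (!b4 && !b5 && !b6 && !b8) || (!b5 && !b6 && !b7 && !b8)) =
      true) := by
  decide

/-- the combinatorial part: `b i` stands for `nine i` is irrational -/
theorem count (b0 b1 b2 b3 b4 b5 b6 b7 b8 : Bool)
    (h1 : ∀ S ∈ FiveOfNine.sets, ∃ i ∈ S, ![b0, b1, b2, b3, b4, b5, b6, b7, b8] i = true)
    (h2 : b0 = true ∨ b4 = true ∨ b6 = true) (h3 : b1 = true ∨ b4 = true ∨ b6 = true) :
    6 ≤ b0.toNat + b1.toNat + b2.toNat + b3.toNat + b4.toNat + b5.toNat + b6.toNat + b7.toNat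
      + b8.toNat ∨
    (b4 = false ∧ b5 = false ∧ b6 = false ∧ b8 = false) ∨
    (b5 = false ∧ b6 = false ∧ b7 = false ∧ b8 = false) := by
  have h := count0 b0 b1 b2 b3 b4 b5 b6 b7 b8 h1
    (by simpa [Bool.or_eq_true, or_assoc] using h2) (by simpa [Bool.or_eq_true, or_assoc] using h3)
  simp only [Bool.or_eq_true, Bool.and_eq_true, decide_eq_true_eq, Bool.not_eq_true'] at h
  tauto

theorem rat_alg {x : ℝ} (h : ¬ Irrational x) : IsAlgebraic ℚ x :=
  Pool.Agent.H364R2.PiE.rat_isAlgebraic h

/-- **At least six of the nine numbers are irrational**, unless either `π ^ π`, `e ^ e`, `π ^ e`,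
`e ^ (π²)` are rational and the other five are transcendental, or `e ^ e`, `π ^ e`, `π ^ √2`,
`e ^ (π²)` are rational and the other five are transcendental. -/
theorem result : 6 ≤ {i : Fin 9 | Irrational (nine i)}.ncard ∨
    ((∀ i ∈ ({4, 5, 6, 8} : Finset (Fin 9)), ¬ Irrational (nine i)) ∧
      ∀ i ∈ ({0, 1, 2, 3, 7} : Finset (Fin 9)), Transcendental ℚ (nine i)) ∨
    ((∀ i ∈ ({5, 6, 7, 8} : Finset (Fin 9)), ¬ Irrational (nine i)) ∧
      ∀ i ∈ ({0, 1, 2, 3, 4} : Finset (Fin 9)), Transcendental ℚ (nine i)) := by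
  classical
  have hmain : ∀ S ∈ FiveOfNine.sets, (∀ i ∈ S, IsAlgebraic ℚ (nine i)) → False :=
    fun S hS h => FiveOfNine.main S hS h
  let b : Fin 9 → Bool := fun i => decide (Irrational (nine i))
  have h1 : {i : Fin 9 | Irrational (nine i)}.ncard = (b 0).toNat + (b 1).toNat
      + (b 2).toNat + (b 3).toNat + (b 4).toNat + (b 5).toNat + (b 6).toNat + (b 7).toNat
      + (b 8).toNat := by
    have h2 : {i : Fin 9 | Irrational (nine i)}
        = ((Finset.univ.filter (fun i => Irrational (nine i)) : Finset (Fin 9)) :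
          Set (Fin 9)) := by
      ext i; simp
    rw [h2, Set.ncard_coe_finset, Finset.card_filter]
    have h3 : ∀ i : Fin 9, (if Irrational (nine i) then 1 else 0) = (b i).toNat := by
      intro i
      by_cases h : Irrational (nine i) <;> simp [b, h]
    rw [Finset.sum_congr rfl (fun i _ => h3 i)]
    simp only [Fin.sum_univ_succ, Fin.sum_univ_zero]
    simp only [add_zero, ← add_assoc]
    rfl
  have hb : ![b 0, b 1, b 2, b 3, b 4, b 5, b 6, b 7, b 8] = b := by
    funext i
    fin_cases i <;> rfl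
  have hf : ∀ i, b i = false → ¬ Irrational (nine i) := by
    intro i hi
    simpa [b] using hi
  have e0 : nine 0 = π + exp 1 := rfl
  have e1 : nine 1 = π - exp 1 := rfl
  have e4 : nine 4 = π ^ π := rfl
  have e6 : nine 6 = π ^ exp 1 := rfl
  have hc := count (b 0) (b 1) (b 2) (b 3) (b 4) (b 5) (b 6) (b 7) (b 8) (by
      intro S hS
      by_contra hcon
      push Not at hcon
      refine hmain S hS fun i hi => rat_alg (hf i ?_)
      have := hcon i hi
      rw [hb] at this
      simpa using this) (by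
      by_contra hcon
      push Not at hcon
      simp only [ne_eq, Bool.not_eq_true] at hcon
      obtain ⟨g0, g4, g6⟩ := hcon
      exact Pool.Agent.H364R2.PiE.sum_pow (hf 0 g0) (rat_alg (hf 6 g6)) (rat_alg (hf 4 g4))) (by
      by_contra hcon
      push Not at hcon
      simp only [ne_eq, Bool.not_eq_true] at hcon
      obtain ⟨g1, g4, g6⟩ := hcon
      exact diff_pow (hf 1 g1) (rat_alg (hf 6 g6)) (rat_alg (hf 4 g4)))
  rw [← h1] at hc
  rcases hc with hc | ⟨g4, g5, g6, g8⟩ | ⟨g5, g6, g7, g8⟩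
  · exact Or.inl hc
  · refine Or.inr (Or.inl ⟨?_, ?_⟩)
    · intro i hi
      simp only [Finset.mem_insert, Finset.mem_singleton] at hi
      rcases hi with rfl | rfl | rfl | rfl
      · exact hf 4 g4
      · exact hf 5 g5
      · exact hf 6 g6
      · exact hf 8 g8
    · intro i hi
      simp only [Finset.mem_insert, Finset.mem_singleton] at hi
      have a4 := rat_alg (hf 4 g4)
      have a5 := rat_alg (hf 5 g5)
      have a6 := rat_alg (hf 6 g6)
      rcases hi with rfl | rfl | rfl | rfl | rfl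
      · intro h; exact hmain [0, 5] (by simp [FiveOfNine.sets]) (by simp [h, a5])
      · intro h; exact hmain [1, 5] (by simp [FiveOfNine.sets]) (by simp [h, a5])
      · intro h; exact hmain [2, 4, 5] (by simp [FiveOfNine.sets]) (by simp [h, a4, a5])
      · intro h; exact hmain [3, 5] (by simp [FiveOfNine.sets]) (by simp [h, a5])
      · intro h; exact hmain [4, 5, 6, 7] (by simp [FiveOfNine.sets]) (by simp [h, a4, a5, a6])
  · refine Or.inr (Or.inr ⟨?_, ?_⟩)
    · intro i hi
      simp only [Finset.mem_insert, Finset.mem_singleton] at hi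
      rcases hi with rfl | rfl | rfl | rfl
      · exact hf 5 g5
      · exact hf 6 g6
      · exact hf 7 g7
      · exact hf 8 g8
    · intro i hi
      simp only [Finset.mem_insert, Finset.mem_singleton] at hi
      have a7 := rat_alg (hf 7 g7)
      have a5 := rat_alg (hf 5 g5)
      have a6 := rat_alg (hf 6 g6)
      rcases hi with rfl | rfl | rfl | rfl | rfl
      · intro h; exact hmain [0, 5] (by simp [FiveOfNine.sets]) (by simp [h, a5])
      · intro h; exact hmain [1, 5] (by simp [FiveOfNine.sets]) (by simp [h, a5])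
      · intro h; exact hmain [2, 7] (by simp [FiveOfNine.sets]) (by simp [h, a7])
      · intro h; exact hmain [3, 5] (by simp [FiveOfNine.sets]) (by simp [h, a5])
      · intro h; exact hmain [4, 5, 6, 7] (by simp [FiveOfNine.sets]) (by simp [h, a7, a5, a6])

end Pool.Agent.Results.MP_a2f59b_nt.SixIrrational
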